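import Pool.Agent.H447.IP.Poly
import Pool.Agent.H447.IPX.H201_Mind

/-!
# Computable bounds for the integer points on plane curves: boundedly many guesses, most polynomials

The question asks for a computable function `B` such that the integer zeros of `f` are bounded by `B f`
for every integer polynomial `f` in two variables with finitely many integer zeros.

There are `(2 H + 1) ^ ((n + 1) ^ 2)` polynomials `f` of degree at most `n` in each variable with
coefficients in `[-H, H]`. Let `K`, `g` be computable functions, `g` unbounded (for instance `log log n`). Call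
a number, or an algorithm, right for most of them if there are at most
`K(n) (H + 1) ^ ((n + 1) ^ 2 - g(n) (n + 1))` exceptions (the bound `0` has about `H ^ ((n + 1) ^ 2 - 1)`
exceptions). It is shown that the question has a positive answer if one of the following holds
for the pairs `(n, H)` in a decidable set which contains arbitrarily large `n` with arbitrarily large
`g(n)` and with infinitely many `H`.

* A partial algorithm gives for `(n, H)` at most `k` numbers (it is not known how many appear and which
  one is right), one of which is a bound for most of the polynomials.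
* One of `k` algorithms, which need not halt, gives a bound for most of the polynomials. Which one may
  depend on `n` and `H` in a non-computable way.
* An algorithm approximates a number, changing its mind at most `k` times, and the final value is a
  bound for most of the polynomials.

The reason: `f` and `f (1 + 2 P)` have the same integer zeros. If `f` is fixed and `g(n)` is large, there are
more of the products `f (1 + 2 P)` than exceptions, so a number which is right for most polynomials is
right for `f`. To find a right one of `k` guesses which need not appear, one uses the largest number `m` such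
that at least `m` guesses appear at arbitrarily large stages: after a certain stage one may wait until
`m` guesses have appeared and take their sum (H201.AD).
-/

set_option autoImplicit false

namespace Pool.Agent.Results.MP_2d259b_nt.BoundedGuesses

/-- a polynomial in two variables, given by the list of its terms `(i, j, c)`, that is `c x ^ i y ^ j` -/
abbrev Poly : Type := List (ℕ × ℕ × ℤ)

/-- `c` bounds the integer zeros of `L` if there are finitely many -/
def Bounds (c : ℕ) (L : Poly) : Prop :=
  {p : ℤ × ℤ | (L.map (fun t => t.2.2 * p.1 ^ t.1 * p.2 ^ t.2.1)).sum = 0}.Finite →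
    ∀ x y : ℤ, (L.map (fun t => t.2.2 * x ^ t.1 * y ^ t.2.1)).sum = 0 → x.natAbs ≤ c ∧ y.natAbs ≤ c

/-- The question: there is a computable bound (this is the frozen statement). -/
def Q1 : Prop := ∃ B : Poly → ℕ, Computable B ∧ ∀ L, Bounds (B L) L

/-- the polynomials of degree at most `n` in each variable with coefficients in `[-H, H]` -/
def Box (n H : ℕ) : Set Poly :=
  {L | ∃ c : ℕ → ℕ → ℤ, (∀ i j, (c i j).natAbs ≤ H) ∧
    L = (List.range (n + 1)).flatMap fun i => (List.range (n + 1)).map fun j => (i, j, c i j)}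

/-- the polynomials in `Box n H` for which `c` is not a bound -/
def Exceptions (c n H : ℕ) : Set Poly := {L | L ∈ Box n H ∧ ¬ Bounds c L}

/-- the polynomials in `Box n H` for which the algorithm `A` does not halt or does not give a bound -/
def Failures (A : Poly →. ℕ) (n H : ℕ) : Set Poly := {L | L ∈ Box n H ∧ ¬ ∃ c ∈ A L, Bounds c L}

/-- the admitted number of exceptions -/
def few (K g : ℕ → ℕ) (n H : ℕ) : ℕ := K n * (H + 1) ^ ((n + 1) ^ 2 - g n * (n + 1))

/-- `K`, `g` are computable and `r` is a decidable set of pairs `(n, H)`, with arbitrarily large `n` with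
arbitrarily large `g n` such that `r` contains `(n, H)` for infinitely many `H` -/
def Params (K g : ℕ → ℕ) (r : ℕ × ℕ → Bool) : Prop :=
  Computable K ∧ Computable g ∧ Computable r ∧
    ∀ m, ∃ n, m ≤ n ∧ m ≤ g n ∧ ∀ B, ∃ H ≥ B, r (n, H) = true

/-- a partial algorithm `F` which gives for all `(n, H)` in `r` at most `k` numbers `F ((n, H), b)`, `b < k`, one of
which is a bound with few exceptions -/
def Guesses (k : ℕ) (F : (ℕ × ℕ) × ℕ →. ℕ) (K g : ℕ → ℕ) (r : ℕ × ℕ → Bool) : Prop :=
  Partrec F ∧ ∀ n H : ℕ, r (n, H) = true →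
    ∃ b < k, ∃ c ∈ F ((n, H), b), (Exceptions c n H).encard ≤ ((few K g n H : ℕ) : ℕ∞)

/-- `k` partial algorithms `A (i, ·)`, one of which, for each `(n, H)` in `r`, has few failures -/
def Algorithms (k : ℕ) (A : ℕ × Poly →. ℕ) (K g : ℕ → ℕ) (r : ℕ × ℕ → Bool) : Prop :=
  Partrec A ∧ ∀ n H : ℕ, r (n, H) = true →
    ∃ i < k, (Failures (fun L => A (i, L)) n H).encard ≤ ((few K g n H : ℕ) : ℕ∞)

/-- computable approximations `G ((n, H), s)` which, for each `(n, H)` in `r`, change at most `k` times and are
finally a bound with few exceptions -/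
def Approximations (k : ℕ) (G : (ℕ × ℕ) × ℕ → ℕ) (K g : ℕ → ℕ) (r : ℕ × ℕ → Bool) : Prop :=
  Computable G ∧ ∀ n H : ℕ, r (n, H) = true →
    ∃ s₀, (∀ s ≥ s₀, G ((n, H), s) = G ((n, H), s₀)) ∧
      {s | G ((n, H), s + 1) ≠ G ((n, H), s)}.ncard ≤ k ∧
      (Exceptions (G ((n, H), s₀)) n H).encard ≤ ((few K g n H : ℕ) : ℕ∞)

/-- The number of the polynomials, and three conditions each of which is equivalent to a positive answer. -/
theorem result :
    (∀ n H : ℕ, (Box n H).encard = (((2 * H + 1) ^ ((n + 1) ^ 2) : ℕ) : ℕ∞)) ∧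
    (Q1 ↔ ∃ k F K g r, Params K g r ∧ Guesses k F K g r) ∧
    (Q1 ↔ ∃ k A K g r, Params K g r ∧ Algorithms k A K g r) ∧
    (Q1 ↔ ∃ k G K g r, Params K g r ∧ Approximations k G K g r) := by
  have hpar : Params (fun _ => 0) (fun n => n) (fun _ => true) :=
    ⟨Computable.const 0, Computable.id, Computable.const true,
      fun m => ⟨m, le_rfl, le_rfl, fun B => ⟨B, le_rfl, rfl⟩⟩⟩
  have hguess : ∀ k F K g r, Params K g r → Guesses k F K g r → Q1 := by
    rintro k F K g r ⟨hK, hg, hr, hd⟩ ⟨hF, h⟩
    exact Pool.Agent.H447.IP.of_guesses k hF hK hg hr hd h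
  -- a computable number which bounds the zeros of all the polynomials in a box
  have hbox : ∀ B : Poly → ℕ, Computable B → (∀ L, Bounds (B L) L) →
      ∃ C : ℕ × ℕ → ℕ, Computable C ∧ ∀ n H, Exceptions (C (n, H)) n H = ∅ := by
    intro B hB hB2
    refine ⟨fun x => Pool.Agent.Q324.SC.gmax (fun k => B (Pool.Agent.H447.IP.bx x.1 x.2 k))
      (Pool.Agent.H447.IP.tot x.1 x.2), ?_, fun n H => ?_⟩
    · refine Pool.Agent.Q324.SC.gmax_comp
        (f := fun (x : ℕ × ℕ) k => B (Pool.Agent.H447.IP.bx x.1 x.2 k)) ?_
        Pool.Agent.H447.IP.tot_primrec.to_comp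
      have h1 : Primrec (fun y : (ℕ × ℕ) × ℕ => (y.1.1, y.1.2, y.2)) := by fun_prop
      exact hB.comp (Pool.Agent.H447.IP.bx_primrec.comp h1).to_comp
    · rw [Set.eq_empty_iff_forall_notMem]
      rintro L ⟨hL, hL2⟩
      obtain ⟨k, hk, rfl⟩ := Pool.Agent.H447.IP.bx_surj hL
      refine hL2 fun hf x y hxy => ?_
      have h1 := hB2 _ hf x y hxy
      have h2 := Pool.Agent.Q324.SC.le_gmax (fun k => B (Pool.Agent.H447.IP.bx n H k)) hk
      exact ⟨h1.1.trans h2, h1.2.trans h2⟩
  refine ⟨Pool.Agent.Results.MP_2d259b_nt.WorstCaseFromMostCurves.box_card, ⟨?_, ?_⟩, ⟨?_, ?_⟩,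
    ⟨?_, ?_⟩⟩
  · rintro ⟨B, hB, hB2⟩
    obtain ⟨C, hC, hC2⟩ := hbox B hB hB2
    refine ⟨1, fun x => Part.some (C x.1), _, _, _, hpar, (hC.comp Computable.fst).partrec,
      fun n H _ => ⟨0, Nat.one_pos, C (n, H), Part.mem_some _, ?_⟩⟩
    rw [hC2, Set.encard_empty]
    exact zero_le
  · rintro ⟨k, F, K, g, r, hp, h⟩
    exact hguess k F K g r hp h
  · rintro ⟨B, hB, hB2⟩
    refine ⟨1, fun x => Part.some (B x.2), _, _, _, hpar, (hB.comp Computable.snd).partrec,
      fun n H _ => ⟨0, Nat.one_pos, ?_⟩⟩
    have h1 : Failures (fun L => Part.some (B L)) n H = ∅ := by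
      rw [Set.eq_empty_iff_forall_notMem]
      rintro L ⟨_, hL2⟩
      exact hL2 ⟨B L, Part.mem_some _, hB2 L⟩
    change (Failures (fun L => Part.some (B L)) n H).encard ≤ _
    rw [h1, Set.encard_empty]
    exact zero_le
  · rintro ⟨k, A, K, g, r, ⟨hK, hg, hr, hd⟩, hA, h⟩
    exact Pool.Agent.H447.IP.of_algorithms k hA hK hg hr hd h
  · rintro ⟨B, hB, hB2⟩
    obtain ⟨C, hC, hC2⟩ := hbox B hB hB2
    refine ⟨0, fun x => C x.1, _, _, _, hpar, hC.comp Computable.fst,
      fun n H _ => ⟨0, fun _ _ => rfl, ?_, ?_⟩⟩
    · simp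
    · simp only
      rw [hC2, Set.encard_empty]
      exact zero_le
  · rintro ⟨k, G, K, g, r, hp, hG, h⟩
    have h1 : Computable fun x : ℕ × ℕ => G (x.1.unpair, x.2) :=
      hG.comp ((Computable.unpair.comp Computable.fst).pair Computable.snd)
    obtain ⟨F, hF, hF2⟩ := Pool.Agent.H201.AD.guesses_of_mind_changes h1
    refine hguess (k + 1) (fun x => F (Nat.pair x.1.1 x.1.2, x.2)) K g r hp ⟨?_, fun n H hn => ?_⟩
    · have h2 : Computable fun x : (ℕ × ℕ) × ℕ => Nat.pair x.1.1 x.1.2 :=
        (Primrec₂.natPair.comp (Primrec.fst.comp Primrec.fst)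
          (Primrec.snd.comp Primrec.fst)).to_comp
      exact hF.comp (h2.pair Computable.snd)
    · obtain ⟨s₀, g1, g2, g3⟩ := h n H hn
      obtain ⟨b, hb, hb2⟩ := hF2 k (Nat.pair n H) s₀
        (by intro s hs; simp only [Nat.unpair_pair]; exact g1 s hs)
        (by simp only [Nat.unpair_pair]; exact g2)
      simp only [Nat.unpair_pair] at hb2
      exact ⟨b, hb, _, hb2, g3⟩

end Pool.Agent.Results.MP_2d259b_nt.BoundedGuesses
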