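import Pool.Agent.H912.AE.Fa

/-!
# Integral points on most plane curves `f(x^m, y^m) = 0`

Let `(X_c)` be an arbitrary family of affine schemes of finite type over `ℤ` (closed subschemes of
`𝔸^{n+1}`, for instance plane curves of bounded degree) with integral parameters
`c = (c_1, ..., c_R)`, let `I` be a set of coordinates, and let
`X_{c,m} = {x : (x_0^m, ..., x_n^m) ∈ X_c, x_i a unit for i ∈ I}`.  We show that `100%` of all the
`X_{c,m}` satisfy the integral Hasse principle, already with points modulo `q` for the primes `q`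
in a bounded interval; the proportion of the `X_{c,m}` with a point over `ℤ[1/P]` exists, and it is
`0`, `1/2` or `1`.  For the family of all polynomials `f` with a given support which contains the
constant term this says: for `100%` of the `m` and `100%` of the `f`, the equation
`f(x_0^m, ..., x_n^m) = 0` has no solutions in `ℤ[1/P]`, and not even modulo a bounded prime.
-/

set_option autoImplicit false

open Filter Topology

namespace Pool.Agent.Results.MP_2d259b_nt.MostPlaneCurves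

variable {R n : ℕ}

/-- `X_{c,m}` has a point over the ring `A`: there are `x_0, ..., x_n ∈ A`, units for `i ∈ I`, with
`F(c; x_0^m, ..., x_n^m) = 0` for all `F` in `S`. -/
def HasPt (S : Finset (MvPolynomial (Fin (R + (n + 1))) ℤ)) (I : Finset (Fin (n + 1)))
    (c : Fin R → ℤ) (m : ℕ) (A : Type) [CommRing A] : Prop :=
  ∃ x : Fin (n + 1) → A, (∀ i ∈ I, IsUnit (x i)) ∧ ∀ F ∈ S,
    MvPolynomial.aeval (Fin.append (fun i => (c i : A)) (fun j => x j ^ m)) F = 0

/-- There is a point `η` with coordinates in `E`, nonzero at the places in `I`, which lies on all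
`X_c`, `c ∈ ℤ^R`. -/
def BasePt (S : Finset (MvPolynomial (Fin (R + (n + 1))) ℤ)) (I : Finset (Fin (n + 1)))
    (E : Set ℤ) : Prop :=
  ∃ η : Fin (n + 1) → ℤ, (∀ i, η i ∈ E) ∧ (∀ i ∈ I, η i ≠ 0) ∧
    ∀ c : Fin R → ℤ, ∀ F ∈ S, MvPolynomial.aeval (Fin.append c η) F = 0

open Classical in
/-- `1` if the base locus has a point with coordinates in `{0, 1}`, otherwise `1/2` if it has a
point with coordinates in `{0, 1, -1}`, otherwise `0`. -/
noncomputable def dens (S : Finset (MvPolynomial (Fin (R + (n + 1))) ℤ))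
    (I : Finset (Fin (n + 1))) : ℝ :=
  if BasePt S I {0, 1} then 1 else if BasePt S I {0, 1, -1} then 1 / 2 else 0

open Classical in
/-- The number of the `c` in the box `∏ [a_i, a_i + H_i)` with the property `P`. -/
noncomputable def inBox (a : Fin R → ℤ) (H : Fin R → ℕ) (P : (Fin R → ℤ) → Prop) : ℕ :=
  ((Fintype.piFinset fun i => Finset.Ico (a i) (a i + H i)).filter P).card

/-- The number of the pairs `(m, c)` with `1 ≤ m ≤ M`, with `c` in the box
`∏ [a_i, a_i + H_i)`, and with the property `P m c`. -/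
noncomputable def pairs (M : ℕ) (a : Fin R → ℤ) (H : Fin R → ℕ)
    (P : ℕ → (Fin R → ℤ) → Prop) : ℕ :=
  ∑ m ∈ Finset.Icc 1 M, inBox a H (P m)

/-- The set `A` of positive integers has natural density `δ`. -/
def HasDensity (A : Set ℕ) (δ : ℝ) : Prop :=
  Tendsto (fun N : ℕ => ((A ∩ Set.Icc 1 N).ncard : ℝ) / N) atTop (𝓝 δ)

/-- The polynomial equation `∑ c_l x_0^{m α_{l,0}} ... x_n^{m α_{l,n}} = 0`, that is
`f(x_0^m, ..., x_n^m) = 0` for the polynomial `f = ∑ c_l y^{α_l}`, has a solution in the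
ring `A`. -/
def Solvable (α : Fin R → Fin (n + 1) → ℕ) (m : ℕ) (c : Fin R → ℤ) (A : Type) [CommRing A] :
    Prop :=
  ∃ x : Fin (n + 1) → A, ∑ l, (c l : A) * ∏ j, (x j ^ m) ^ α l j = 0

lemma inBox_le (a : Fin R → ℤ) (H : Fin R → ℕ) (P : (Fin R → ℤ) → Prop) :
    (inBox a H P : ℝ) ≤ ∏ i, (H i : ℝ) := by
  classical
  have h1 : inBox a H P ≤ ∏ i, H i := by
    refine (Finset.card_filter_le _ _).trans (le_of_eq ?_)
    rw [Fintype.card_piFinset]
    refine Finset.prod_congr rfl fun i _ => ?_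
    rw [Int.card_Ico]
    omega
  exact_mod_cast h1

lemma inBox_true (a : Fin R → ℤ) (H : Fin R → ℕ) {P : (Fin R → ℤ) → Prop} (h : ∀ c, P c) :
    (inBox a H P : ℝ) = ∏ i, (H i : ℝ) := by
  classical
  have h1 : inBox a H P = ∏ i, H i := by
    rw [inBox, Finset.filter_true_of_mem fun c _ => h c, Fintype.card_piFinset]
    refine Finset.prod_congr rfl fun i _ => ?_
    rw [Int.card_Ico]
    omega
  exact_mod_cast h1

lemma inBox_mono (a : Fin R → ℤ) (H : Fin R → ℕ) {P Q : (Fin R → ℤ) → Prop}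
    (h : ∀ c, P c → Q c) : (inBox a H P : ℝ) ≤ inBox a H Q := by
  classical
  have : inBox a H P ≤ inBox a H Q :=
    Finset.card_le_card (Finset.monotone_filter_right _ fun c _ => h c)
  exact_mod_cast this

lemma inBox_false (a : Fin R → ℤ) (H : Fin R → ℕ) {P : (Fin R → ℤ) → Prop} (h : ∀ c, ¬ P c) :
    inBox a H P = 0 := by
  classical
  rw [inBox, Finset.filter_false_of_mem fun c _ => h c, Finset.card_empty]

/-- points over `ℤ[1/P]` give points modulo the primes `q > P` -/
lemma toZMod {S : Finset (MvPolynomial (Fin (R + (n + 1))) ℤ)} {I : Finset (Fin (n + 1))}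
    {c : Fin R → ℤ} {m P : ℕ} (hP : 0 < P) {q : ℕ} (hq : q.Prime) (hPq : P < q)
    (h : HasPt S I c m (Localization.Away (P : ℤ))) : HasPt S I c m (ZMod q) := by
  have : Fact q.Prime := ⟨hq⟩
  have hu : IsUnit (Int.castRingHom (ZMod q) (P : ℤ)) := by
    rw [isUnit_iff_ne_zero]
    intro h0
    simp only [eq_intCast, Int.cast_natCast] at h0
    rw [ZMod.natCast_eq_zero_iff] at h0
    exact absurd (Nat.le_of_dvd hP h0) (by omega)
  exact Pool.Agent.H912.AE.HasA.map (IsLocalization.Away.lift (P : ℤ) hu) h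

open Classical in
/-- the count for fixed `m` -/
theorem main_count (S : Finset (MvPolynomial (Fin (R + (n + 1))) ℤ)) (I : Finset (Fin (n + 1)))
    (P : ℕ) (ε : ℝ) (hε : 0 < ε) :
    ∃ H₀ N₀ : ℕ, ∀ M : ℕ, N₀ ≤ M → (((Finset.range M).filter (fun m =>
      ¬ (Pool.Agent.H912.AE.TrivA S I m ∨ ∀ ω : (Fin R → ℤ) × (Fin R → ℕ), (∀ i, H₀ ≤ ω.2 i) →
          (inBox ω.1 ω.2 (fun c => ∀ q : ℕ, q.Prime → P < q → q ≤ H₀ →
            HasPt S I c m (ZMod q)) : ℝ) ≤ ε * ∏ i, (ω.2 i : ℝ)))).card : ℝ) ≤ ε * M := by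
  obtain ⟨H₀, N₀, h⟩ := Pool.Agent.H912.AE.familiesA S I P hε
  refine ⟨H₀, N₀, fun M hM => le_trans ?_ (h M hM)⟩
  have hsub : (Finset.range M).filter (fun m => ¬ (Pool.Agent.H912.AE.TrivA S I m ∨
        ∀ ω : (Fin R → ℤ) × (Fin R → ℕ), (∀ i, H₀ ≤ ω.2 i) →
          (inBox ω.1 ω.2 (fun c => ∀ q : ℕ, q.Prime → P < q → q ≤ H₀ →
            HasPt S I c m (ZMod q)) : ℝ) ≤ ε * ∏ i, (ω.2 i : ℝ))) ⊆
      (Finset.range M).filter (fun m => ¬ (Pool.Agent.H912.AE.TrivA S I m ∨
        ∀ (a : Fin R → ℤ) (H : Fin R → ℕ), (∀ i, H₀ ≤ H i) →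
        (((Fintype.piFinset fun i => Finset.Ico (a i) (a i + H i)).filter (fun c =>
          ∀ q : ℕ, q.Prime → P < q → q ≤ H₀ →
            Pool.Agent.H912.AE.HasA S I m c (ZMod q))).card : ℝ) ≤ ε * ∏ i, (H i : ℝ))) := by
    intro m hm
    rw [Finset.mem_filter] at hm ⊢
    exact ⟨hm.1, fun h2 => hm.2 (h2.imp id fun h3 ω hω => h3 ω.1 ω.2 hω)⟩
  exact_mod_cast Finset.card_le_card hsub

/-- the family of all polynomials with the monomials `α_l` -/
noncomputable def sparse (α : Fin R → Fin (n + 1) → ℕ) :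
    MvPolynomial (Fin (R + (n + 1))) ℤ :=
  ∑ l, MvPolynomial.X (Fin.castAdd (n + 1) l) *
    ∏ j, MvPolynomial.X (Fin.natAdd R j) ^ α l j

lemma aeval_sparse {A : Type} [CommRing A] (α : Fin R → Fin (n + 1) → ℕ) (c : Fin R → A)
    (y : Fin (n + 1) → A) :
    MvPolynomial.aeval (Fin.append c y) (sparse α) = ∑ l, c l * ∏ j, y j ^ α l j := by
  simp only [sparse, map_sum, map_mul, map_prod, map_pow, MvPolynomial.aeval_X, Fin.append_left,
    Fin.append_right]

lemma hasPt_sparse {A : Type} [CommRing A] (α : Fin R → Fin (n + 1) → ℕ) (m : ℕ)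
    (c : Fin R → ℤ) : HasPt {sparse α} ∅ c m A ↔ Solvable α m c A := by
  refine exists_congr fun x => ?_
  rw [← aeval_sparse]
  simp

/-- **Main theorem.** Let `P ≥ 1`.  The ring `ℤ[1/P]` is `ℤ` for `P = 1`.

Let `S` be a finite set of polynomials `F(c; y)` with integral coefficients in the variables
`c_1, ..., c_R, y_0, ..., y_n`, let `I` be a set of indices, and let `X_{c,m}` be the scheme of the
`x` with `F(c; x_0^m, ..., x_n^m) = 0` for all `F` in `S` and with `x_i` invertible for `i ∈ I`.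

1. (Integral Hasse principle for `100%` of the members.)  For every `ε > 0` there is `H₀` such
   that, for all `M ≥ H₀` and all boxes with sides `H_i ≥ H₀`, at most `ε M ∏ H_i` of the pairs
   `(m, c)` with `m ≤ M` and `c` in the box are such that `X_{c,m}` has no point over `ℤ` although
   it has a point modulo `q` for all primes `q` with `P < q ≤ H₀`.
2. (The proportion with an integral point.)  The proportion of the pairs `(m, c)` for which
   `X_{c,m}` has a point over `ℤ[1/P]` tends (in the same uniform sense) to `dens S I`.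
3. (Plane curves, and hypersurfaces, with a given support.)  Let `α_l` be exponent vectors, one of
   them `0`, and let `f_c = ∑ c_l y^{α_l}`.  For every `ε > 0` and all `m` outside a set of density
   zero there is `H₀` such that in every box with sides `≥ H₀` the proportion of the `c` for which
   the equation `f_c(x_0^m, ..., x_n^m) = 0` has a solution modulo `q` for all primes `q` with
   `P < q ≤ H₀` is at most `ε`; so is the proportion of those with a solution in `ℤ[1/P]`. -/
theorem result (P : ℕ) (hP : 0 < P) :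
    (∀ (S : Finset (MvPolynomial (Fin (R + (n + 1))) ℤ)) (I : Finset (Fin (n + 1))),
      (∀ ε : ℝ, 0 < ε → ∃ H₀ : ℕ, ∀ (M : ℕ) (a : Fin R → ℤ) (H : Fin R → ℕ), H₀ ≤ M →
        (∀ i, H₀ ≤ H i) → (pairs M a H (fun m c => (∀ q : ℕ, q.Prime → P < q → q ≤ H₀ →
          HasPt S I c m (ZMod q)) ∧ ¬ HasPt S I c m ℤ) : ℝ) ≤ ε * (M * ∏ i, (H i : ℝ))) ∧
      (∀ ε : ℝ, 0 < ε → ∃ H₀ : ℕ, ∀ (M : ℕ) (a : Fin R → ℤ) (H : Fin R → ℕ), H₀ ≤ M →
        (∀ i, H₀ ≤ H i) →
        |(pairs M a H (fun m c => HasPt S I c m (Localization.Away (P : ℤ))) : ℝ) -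
          dens S I * (M * ∏ i, (H i : ℝ))| ≤ ε * (M * ∏ i, (H i : ℝ)))) ∧
    ∀ α : Fin R → Fin (n + 1) → ℕ, (∃ l, α l = 0) → ∀ ε : ℝ, 0 < ε →
      HasDensity {m | ∃ H₀ : ℕ, ∀ (a : Fin R → ℤ) (H : Fin R → ℕ), (∀ i, H₀ ≤ H i) →
        (inBox a H (fun c => ∀ q : ℕ, q.Prime → P < q → q ≤ H₀ → Solvable α m c (ZMod q)) : ℝ) ≤
          ε * ∏ i, (H i : ℝ) ∧
        (inBox a H (fun c => Solvable α m c (Localization.Away (P : ℤ))) : ℝ) ≤
          ε * ∏ i, (H i : ℝ)} 1 := by
  classical
  refine ⟨fun S I => ?_, fun α hα ε hε => ?_⟩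
  · have hTpt : ∀ m, Pool.Agent.H912.AE.TrivA S I m → ∀ c, HasPt S I c m ℤ := by
      rintro m ⟨η, h1, h2, h3⟩ c
      refine ⟨η, fun i hi => ?_, fun F hF => ?_⟩
      · rcases h1 i with h | h | h
        · rw [h]
          exact isUnit_one.neg
        · exact absurd h (h2 i hi)
        · rw [h]
          exact isUnit_one
      · have := h3 F hF c
        simpa using this
    have hZ : ∀ (c : Fin R → ℤ) (m : ℕ) (A : Type) [CommRing A], HasPt S I c m ℤ →
        HasPt S I c m A := fun c m A _ h => Pool.Agent.H912.AE.HasA.map (Int.castRingHom A) h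
    have hsize : ∀ (a b : ℕ) (ω : (Fin R → ℤ) × (Fin R → ℕ)), a ≤ b → (∀ i, b ≤ ω.2 i) →
        (∀ i, a ≤ ω.2 i) := fun a b ω hab h i => hab.trans (h i)
    have hanti : ∀ (a b m : ℕ) (ω : (Fin R → ℤ) × (Fin R → ℕ)), a ≤ b →
        (inBox ω.1 ω.2 (fun c => ∀ q : ℕ, q.Prime → P < q → q ≤ b →
          HasPt S I c m (ZMod q)) : ℝ) ≤
        (inBox ω.1 ω.2 (fun c => ∀ q : ℕ, q.Prime → P < q → q ≤ a →
          HasPt S I c m (ZMod q)) : ℝ) :=
      fun a b m ω hab => inBox_mono _ _ fun c hc q hq1 hq2 hq3 => hc q hq1 hq2 (hq3.trans hab)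
    have hV : ∀ ω : (Fin R → ℤ) × (Fin R → ℕ), 0 ≤ ∏ i, (ω.2 i : ℝ) :=
      fun ω => Finset.prod_nonneg fun _ _ => Nat.cast_nonneg _
    constructor
    · intro ε hε
      obtain ⟨H₀, h⟩ := Pool.Agent.H912.AE.avg_sum
        (fun ω : (Fin R → ℤ) × (Fin R → ℕ) => ∏ i, (ω.2 i : ℝ)) hV
        (fun H₀ ω => ∀ i, H₀ ≤ ω.2 i) hsize
        (fun H₀ m ω => (inBox ω.1 ω.2 (fun c => ∀ q : ℕ, q.Prime → P < q → q ≤ H₀ →
            HasPt S I c m (ZMod q)) : ℝ)) (fun _ _ _ => inBox_le _ _ _) hanti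
        (Pool.Agent.H912.AE.TrivA S I) (main_count S I P) hε
      refine ⟨H₀, fun M a H hM hH => le_trans ?_ (h M (a, H) hM hH)⟩
      rw [pairs, Nat.cast_sum]
      refine Finset.sum_le_sum fun m _ => ?_
      by_cases ht : Pool.Agent.H912.AE.TrivA S I m
      · rw [if_pos ht, inBox_false a H fun c hc => hc.2 (hTpt m ht c), Nat.cast_zero]
      · rw [if_neg ht]
        exact inBox_mono _ _ fun e he => he.1
    · intro ε hε
      have hodd : ∀ m, Odd m → (Pool.Agent.H912.AE.TrivA S I m ↔ BasePt S I {0, 1, -1}) := by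
        intro m hm
        refine exists_congr fun η => ?_
        have h0 : (∀ i, η i ∈ ({0, 1, -1} : Set ℤ)) ↔
            ∀ i, η i = -1 ∨ η i = 0 ∨ η i = 1 := by
          simp only [Set.mem_insert_iff, Set.mem_singleton_iff]
          exact forall_congr' fun i => by tauto
        rw [h0]
        refine and_congr_right fun h1 => and_congr_right fun _ => ?_
        have h2 : (fun j => η j ^ m) = η := by
          funext j
          rcases h1 j with h | h | h
          · rw [h, hm.neg_one_pow]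
          · rw [h, zero_pow (by rintro rfl; simp at hm)]
          · rw [h, one_pow]
        rw [h2]
        exact ⟨fun h c F hF => h F hF c, fun h F hF c => h c F hF⟩
      have heven : ∀ m, Even m → 1 ≤ m →
          (Pool.Agent.H912.AE.TrivA S I m ↔ BasePt S I {0, 1}) := by
        intro m hm hm1
        have hm0 : m ≠ 0 := by omega
        constructor
        · rintro ⟨η, h1, h2, h3⟩
          refine ⟨fun i => η i ^ m, fun i => ?_, fun i hi => pow_ne_zero _ (h2 i hi),
            fun c F hF => h3 F hF c⟩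
          rcases h1 i with h | h | h
          · simp [h, hm.neg_one_pow]
          · simp [h, hm0]
          · simp [h]
        · rintro ⟨η, h1, h2, h3⟩
          have h4 : ∀ i, η i = 0 ∨ η i = 1 := by
            intro i
            have := h1 i
            simpa using this
          refine ⟨η, fun i => Or.inr (h4 i), h2, fun F hF c => ?_⟩
          have h5 : (fun j => η j ^ m) = η := by
            funext j
            rcases h4 j with h | h
            · rw [h, zero_pow hm0]
            · rw [h, one_pow]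
          rw [h5]
          exact h3 c F hF
      have hBA : BasePt S I {0, 1} → BasePt S I {0, 1, -1} := by
        rintro ⟨η, h1, h2⟩
        refine ⟨η, fun i => ?_, h2⟩
        have := h1 i
        simp only [Set.mem_insert_iff, Set.mem_singleton_iff] at this ⊢
        tauto
      obtain ⟨H₀, h⟩ := Pool.Agent.H912.AE.avg_dens
        (fun ω : (Fin R → ℤ) × (Fin R → ℕ) => ∏ i, (ω.2 i : ℝ)) hV
        (fun H₀ ω => ∀ i, H₀ ≤ ω.2 i) hsize
        (fun H₀ m ω => (inBox ω.1 ω.2 (fun c => ∀ q : ℕ, q.Prime → P < q → q ≤ H₀ →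
            HasPt S I c m (ZMod q)) : ℝ)) (fun _ _ _ => inBox_le _ _ _) hanti
        (Pool.Agent.H912.AE.TrivA S I) (main_count S I P)
        (fun m ω => (inBox ω.1 ω.2 (fun c => HasPt S I c m (Localization.Away (P : ℤ))) : ℝ))
        (BasePt S I {0, 1, -1}) (BasePt S I {0, 1}) hBA hodd heven
        (fun m ω ht => inBox_true _ _ fun c => hZ c m _ (hTpt m ht c))
        (fun m ω => Nat.cast_nonneg _)
        (fun H m ω => inBox_mono _ _ fun c hc q hq1 hq2 _ => toZMod hP hq1 hq2 hc) hε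
      refine ⟨H₀, fun M a H hM hH => ?_⟩
      have h1 := h M (a, H) hM hH
      rw [pairs, Nat.cast_sum]
      exact h1
  · obtain ⟨l₀, hl₀⟩ := hα
    have hnt : ∀ m, ¬ Pool.Agent.H912.AE.TrivA {sparse α} ∅ m := by
      rintro m ⟨η, -, -, h⟩
      have h1 := h _ (Finset.mem_singleton_self _) (Pi.single l₀ 1)
      rw [aeval_sparse, Finset.sum_eq_single l₀] at h1
      · rw [Pi.single_eq_same, hl₀] at h1
        simp at h1
      · intro j _ hj
        rw [Pi.single_eq_of_ne hj, zero_mul]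
      · exact fun h => absurd (Finset.mem_univ _) h
    refine Pool.Agent.H912.AE.full_of fun ε' hε' => ?_
    obtain ⟨H₀, N₀, h⟩ := main_count {sparse α} ∅ P (min ε ε') (lt_min hε hε')
    refine ⟨N₀, fun M hM => le_trans ?_ ((h M hM).trans
      (mul_le_mul_of_nonneg_right (min_le_right _ _) (Nat.cast_nonneg _)))⟩
    have hsub : (Finset.range M).filter (fun m => m ∉ {m : ℕ | ∃ H₀ : ℕ,
        ∀ (a : Fin R → ℤ) (H : Fin R → ℕ), (∀ i, H₀ ≤ H i) →
        (inBox a H (fun c => ∀ q : ℕ, q.Prime → P < q → q ≤ H₀ → Solvable α m c (ZMod q)) : ℝ) ≤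
          ε * ∏ i, (H i : ℝ) ∧
        (inBox a H (fun c => Solvable α m c (Localization.Away (P : ℤ))) : ℝ) ≤
          ε * ∏ i, (H i : ℝ)}) ⊆
        (Finset.range M).filter (fun m => ¬ (Pool.Agent.H912.AE.TrivA {sparse α} ∅ m ∨
          ∀ ω : (Fin R → ℤ) × (Fin R → ℕ), (∀ i, H₀ ≤ ω.2 i) →
          (inBox ω.1 ω.2 (fun c => ∀ q : ℕ, q.Prime → P < q → q ≤ H₀ →
            HasPt {sparse α} ∅ c m (ZMod q)) : ℝ) ≤ min ε ε' * ∏ i, (ω.2 i : ℝ))) := by
      intro m hm
      rw [Finset.mem_filter] at hm ⊢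
      refine ⟨hm.1, fun h2 => hm.2 ?_⟩
      rcases h2 with h2 | h2
      · exact absurd h2 (hnt m)
      refine ⟨H₀, fun a H hH => ?_⟩
      have h3 := (h2 (a, H) hH).trans (mul_le_mul_of_nonneg_right (min_le_left _ _)
        (Finset.prod_nonneg fun i _ => Nat.cast_nonneg _))
      refine ⟨le_trans (inBox_mono _ _ fun c hc q hq1 hq2 hq3 => ?_) h3,
        le_trans (inBox_mono _ _ fun c hc q hq1 hq2 hq3 => ?_) h3⟩
      · exact (hasPt_sparse α m c).2 (hc q hq1 hq2 hq3)
      · exact toZMod hP hq1 hq2 ((hasPt_sparse α m c).2 hc)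
    exact_mod_cast Finset.card_le_card hsub

end Pool.Agent.Results.MP_2d259b_nt.MostPlaneCurves
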